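import Mathlib

-- part Pool.Agent.P.MP_e0d2b2_an.Cauchy
section

/-! Cauchy estimates for powers of `(1 - ζ a)⁻¹`. -/

namespace Pool.Agent.P.MP_e0d2b2_an

open Metric

variable {A : Type*} [NormedRing A] [NormedAlgebra ℂ A] [CompleteSpace A]

noncomputable def G (a : A) (ζ : ℂ) : A := Ring.inverse (1 - ζ • a)

theorem isOpen_U (a : A) : IsOpen {ζ : ℂ | IsUnit (1 - ζ • a)} := by
  have hc : Continuous fun ζ : ℂ => (1 : A) - ζ • a := by fun_prop
  exact Units.isOpen.preimage hc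

omit [CompleteSpace A] in
theorem commute_G (a : A) (ζ : ℂ) : Commute a (G a ζ) := by
  unfold G
  have h : Commute a (1 - ζ • a) := (Commute.one_right a).sub_right ((Commute.refl a).smul_right ζ)
  by_cases hu : IsUnit (1 - ζ • a)
  · obtain ⟨u, hu⟩ := hu
    rw [← hu] at h ⊢
    rw [Ring.inverse_unit]
    exact h.units_inv_right
  · rw [Ring.inverse_non_unit _ hu]
    exact Commute.zero_right a

theorem hasDerivAt_G (a : A) {ζ : ℂ} (h : IsUnit (1 - ζ • a)) :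
    HasDerivAt (G a) (a * G a ζ ^ 2) ζ := by
  have H₁ : HasFDerivAt Ring.inverse _ (1 - ζ • a) :=
    hasFDerivAt_ringInverse (𝕜 := ℂ) h.unit
  have H₂ : HasDerivAt (fun w : ℂ => (1 : A) - w • a) (-a) ζ := by
    simpa using ((hasDerivAt_id ζ).smul_const a).const_sub 1
  have H₃ := H₁.comp_hasDerivAt ζ H₂
  have hG : G a ζ = ↑h.unit⁻¹ := by
    unfold G
    rw [← Ring.inverse_unit h.unit, h.unit_spec]
  have hc := (commute_G a ζ).eq
  refine HasDerivAt.congr_deriv H₃ ?_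
  rw [← hG]
  simp only [neg_apply, ContinuousLinearMap.mulLeftRight_apply, mul_neg,
    neg_mul, neg_neg]
  rw [← hc, pow_two, mul_assoc]

theorem hasDerivAt_G_pow (a : A) {ζ : ℂ} (h : IsUnit (1 - ζ • a)) (k : ℕ) :
    HasDerivAt (fun w => G a w ^ k) ((k : ℂ) • (a * G a ζ ^ (k + 1))) ζ := by
  induction k with
  | zero => simpa using hasDerivAt_const ζ (1 : A)
  | succ k ih =>
    have H := ih.mul (hasDerivAt_G a h)
    have e1 : (fun w => G a w ^ (k + 1)) = (fun w => G a w ^ k) * G a := by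
      funext w; simp [pow_succ]
    rw [e1]
    convert H using 1
    have hc : G a ζ ^ k * a = a * G a ζ ^ k := ((commute_G a ζ).pow_right k).eq.symm
    rw [← mul_assoc (G a ζ ^ k), hc, mul_assoc, ← pow_add, smul_mul_assoc, mul_assoc, ← pow_succ]
    push_cast
    rw [add_smul, one_smul]

theorem iteratedDeriv_G_pow (a : A) (k j : ℕ) :
    ∀ ζ : ℂ, IsUnit (1 - ζ • a) →
      iteratedDeriv j (fun w => G a w ^ k) ζ
        = (k.ascFactorial j : ℂ) • (a ^ j * G a ζ ^ (k + j)) := by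
  induction j with
  | zero => intro ζ _; simp
  | succ j ih =>
    intro ζ h
    rw [iteratedDeriv_succ]
    have hev : iteratedDeriv j (fun w => G a w ^ k) =ᶠ[nhds ζ]
        fun w => (k.ascFactorial j : ℂ) • (a ^ j * G a w ^ (k + j)) := by
      filter_upwards [(isOpen_U a).mem_nhds h] with w hw using ih w hw
    rw [hev.deriv_eq]
    have H := ((hasDerivAt_G_pow a h (k + j)).const_mul (a ^ j)).const_smul
      (k.ascFactorial j : ℂ)
    have H' := H.deriv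
    simp only [Pi.smul_def] at H'
    rw [H', Nat.ascFactorial_succ, mul_smul_comm, smul_smul, ← mul_assoc, ← pow_succ]
    push_cast
    rw [mul_comm, add_assoc]

omit [CompleteSpace A] in
theorem isUnit_of_spectrum {a : A} (hs : spectrum ℂ a ⊆ ball 0 1) {ζ : ℂ} (hζ : ‖ζ‖ ≤ 1) :
    IsUnit (1 - ζ • a) := by
  by_cases h0 : ζ = 0
  · simp [h0]
  have hn : ζ⁻¹ ∉ spectrum ℂ a := by
    intro hm
    have h1 := hs hm
    rw [mem_ball_zero_iff, norm_inv] at h1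
    have h2 : 0 < ‖ζ‖ := norm_pos_iff.mpr h0
    rw [inv_lt_one_iff₀] at h1
    rcases h1 with h1 | h1 <;> linarith
  have hu : IsUnit (algebraMap ℂ A ζ⁻¹ - a) := by
    simpa [spectrum.mem_iff] using hn
  have : (1 : A) - ζ • a = algebraMap ℂ A ζ * (algebraMap ℂ A ζ⁻¹ - a) := by
    rw [mul_sub, ← map_mul, mul_inv_cancel₀ h0, map_one, Algebra.smul_def]
  rw [this]
  exact ((isUnit_iff_ne_zero.mpr h0).map (algebraMap ℂ A)).mul hu

omit [CompleteSpace A] in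
theorem norm_G_le {a : A} (hs : spectrum ℂ a ⊆ ball 0 1) {M : ℝ}
    (hM : ∀ z : ℂ, 1 ≤ ‖z‖ → ‖resolvent a z‖ ≤ M) {ζ : ℂ} (hζ : ‖ζ‖ = 1) : ‖G a ζ‖ ≤ M := by
  have h0 : ζ ≠ 0 := by rintro rfl; simp at hζ
  have hu := isUnit_of_spectrum hs hζ.le
  have e1 : algebraMap ℂ A ζ⁻¹ - a = ζ⁻¹ • (1 - ζ • a) := by
    rw [smul_sub, smul_smul, inv_mul_cancel₀ h0, one_smul, Algebra.algebraMap_eq_smul_one]
  have e2 : resolvent a ζ⁻¹ = ζ • G a ζ := by
    unfold resolvent G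
    obtain ⟨u, hu⟩ := hu
    rw [e1, ← hu, Ring.inverse_unit]
    have : ζ⁻¹ • (u : A) = ((Units.mk0 ζ h0)⁻¹ • u : Aˣ) := by
      simp [Units.smul_def]
    rw [this, Ring.inverse_unit]
    simp [Units.smul_def]
  have h := hM ζ⁻¹ (by rw [norm_inv, hζ]; simp)
  rwa [e2, norm_smul, hζ, one_mul] at h

/-- The key estimate: `C(n+j, j) ‖a^j‖ ≤ M^(n+1)`. -/
theorem choose_mul_norm_pow_le {a : A} (hs : spectrum ℂ a ⊆ ball 0 1) {M : ℝ}
    (hM : ∀ z : ℂ, 1 ≤ ‖z‖ → ‖resolvent a z‖ ≤ M) (n j : ℕ) :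
    ((n + j).choose j : ℝ) * ‖a ^ j‖ ≤ M ^ (n + 1) := by
  have hd : DiffContOnCl ℂ (fun w => G a w ^ (n + 1)) (ball 0 1) := by
    apply DifferentiableOn.diffContOnCl
    rw [closure_ball _ one_ne_zero]
    intro w hw
    exact (hasDerivAt_G_pow a (isUnit_of_spectrum hs (mem_closedBall_zero_iff.mp hw))
      (n + 1)).differentiableAt.differentiableWithinAt
  have hb : ∀ z ∈ sphere (0 : ℂ) 1, ‖G a z ^ (n + 1)‖ ≤ M ^ (n + 1) := by
    intro z hz
    have h1 := norm_G_le hs hM (mem_sphere_zero_iff_norm.mp hz)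
    exact (norm_pow_le' _ (Nat.succ_pos n)).trans (pow_le_pow_left₀ (norm_nonneg _) h1 _)
  have h := Complex.norm_iteratedDeriv_le_of_forall_mem_sphere_norm_le j one_pos hd hb
  rw [iteratedDeriv_G_pow a (n + 1) j 0 (by simp)] at h
  have hG0 : G a 0 = 1 := by simp [G]
  rw [hG0, one_pow, mul_one, norm_smul, Nat.ascFactorial_eq_factorial_mul_choose, one_pow,
    div_one, Complex.norm_natCast] at h
  push_cast at h
  have hf : (0 : ℝ) < j.factorial := by exact_mod_cast j.factorial_pos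
  rw [mul_assoc] at h
  exact le_of_mul_le_mul_left h hf

end Pool.Agent.P.MP_e0d2b2_an
end

-- part Pool.Agent.P.MP_e0d2b2_an.RealIneq
section

/-! The real-variable inequality behind the upper bound `e`. -/

namespace Pool.Agent.P.MP_e0d2b2_an

open Finset

/-- the standing hypothesis on the sequence `b j = ‖T^j‖` -/
def Hyp (M : ℝ) (b : ℕ → ℝ) : Prop :=
  ∀ n j : ℕ, ((n + j).choose j : ℝ) * b j ≤ M ^ (n + 1)

theorem Hyp.le_div {M : ℝ} {b : ℕ → ℝ} (h : Hyp M b) (n j : ℕ) :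
    b j ≤ M ^ (n + 1) / ((n + j).choose j : ℝ) := by
  have hp : (0 : ℝ) < ((n + j).choose j : ℝ) := by
    exact_mod_cast Nat.choose_pos (Nat.le_add_left j n)
  rw [le_div_iff₀ hp, mul_comm]
  exact h n j

noncomputable def cc (p j : ℕ) : ℝ := 1 / ((j + p + 1).choose (p + 1) : ℝ)

theorem cc_nonneg (p j : ℕ) : 0 ≤ cc p j := by unfold cc; positivity

theorem telescope (p j : ℕ) :
    1 / ((p + 2 + j).choose j : ℝ) = ((p : ℝ) + 2) / (p + 1) * (cc p j - cc p (j + 1)) := by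
  have hs : (p + 2 + j).choose j = (j + p + 2).choose (p + 2) := by
    rw [show p + 2 + j = j + (p + 2) by ring, Nat.choose_symm_add, add_assoc]
  have h1 : (j + p + 2) * (j + p + 1).choose (p + 1) = (j + p + 2).choose (p + 2) * (p + 2) :=
    Nat.add_one_mul_choose_eq (j + p + 1) (p + 1)
  have h2 : (j + p + 2).choose (p + 2) * (p + 2) = (j + p + 2).choose (p + 1) * (j + 1) := by
    have := Nat.choose_succ_right_eq (j + p + 2) (p + 1)
    rw [show j + p + 2 - (p + 1) = j + 1 by omega] at this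
    exact this
  have p1 : (0 : ℝ) < ((j + p + 1).choose (p + 1) : ℝ) := by
    exact_mod_cast Nat.choose_pos (by omega)
  have p2 : (0 : ℝ) < ((j + p + 2).choose (p + 1) : ℝ) := by
    exact_mod_cast Nat.choose_pos (by omega)
  have p3 : (0 : ℝ) < ((j + p + 2).choose (p + 2) : ℝ) := by
    exact_mod_cast Nat.choose_pos (by omega)
  unfold cc
  rw [hs, show j + 1 + p + 1 = j + p + 2 by ring]
  have h1' : ((j : ℝ) + p + 2) * ((j + p + 1).choose (p + 1) : ℝ)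
      = ((j + p + 2).choose (p + 2) : ℝ) * (p + 2) := by exact_mod_cast h1
  have h2' : ((j + p + 2).choose (p + 2) : ℝ) * (p + 2)
      = ((j + p + 2).choose (p + 1) : ℝ) * (j + 1) := by exact_mod_cast h2
  set x := ((j + p + 1).choose (p + 1) : ℝ)
  set y := ((j + p + 2).choose (p + 1) : ℝ)
  set z := ((j + p + 2).choose (p + 2) : ℝ)
  have hx : 1 / x = ((j : ℝ) + p + 2) / (z * (p + 2)) := by
    rw [div_eq_div_iff p1.ne' (by positivity), ← h1']; ring
  have hy : 1 / y = ((j : ℝ) + 1) / (z * (p + 2)) := by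
    rw [div_eq_div_iff p2.ne' (by positivity), h2']; ring
  rw [hx, hy]
  field_simp
  ring

theorem Hyp.block {M : ℝ} {b : ℕ → ℝ} (h : Hyp M b) (p A : ℕ) (B : ℕ) (hAB : A ≤ B) :
    ∑ j ∈ Ico A B, b j ≤ M ^ (p + 3) * (((p : ℝ) + 2) / (p + 1) * (cc p A - cc p B)) := by
  induction B, hAB using Nat.le_induction with
  | base => simp
  | succ B hAB ih =>
    rw [Finset.sum_Ico_succ_top hAB]
    have h1 := h.le_div (p + 2) B
    rw [div_eq_mul_one_div, telescope] at h1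
    have : M ^ (p + 3) * (((p : ℝ) + 2) / (p + 1) * (cc p A - cc p (B + 1)))
        = M ^ (p + 3) * (((p : ℝ) + 2) / (p + 1) * (cc p A - cc p B))
          + M ^ (p + 2 + 1) * (((p : ℝ) + 2) / (p + 1) * (cc p B - cc p (B + 1))) := by ring
    rw [this]
    linarith

theorem Hyp.tail {M : ℝ} {b : ℕ → ℝ} (h : Hyp M b) (hM : 0 ≤ M) (p A B : ℕ) :
    ∑ j ∈ Ico A B, b j ≤ M ^ (p + 3) * (((p : ℝ) + 2) / (p + 1) * cc p A) := by
  have hA := cc_nonneg p A
  rcases le_total A B with hAB | hAB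
  · refine (h.block p A B hAB).trans ?_
    have hB := cc_nonneg p B
    gcongr
    linarith
  · rw [Finset.Ico_eq_empty_of_le hAB, Finset.sum_empty]
    positivity

theorem sum_split {b : ℕ → ℝ} (hb : ∀ j, 0 ≤ b j) (A B N : ℕ) (hAB : A ≤ B) :
    ∑ j ∈ Ico A N, b j ≤ ∑ j ∈ Ico A B, b j + ∑ j ∈ Ico B N, b j := by
  rcases le_total B N with h | h
  · rw [Finset.sum_Ico_consecutive _ hAB h]
  · have h1 : ∑ j ∈ Ico A N, b j ≤ ∑ j ∈ Ico A B, b j :=
      Finset.sum_le_sum_of_subset_of_nonneg (Finset.Ico_subset_Ico_right h) fun j _ _ => hb j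
    have h2 : 0 ≤ ∑ j ∈ Ico B N, b j := Finset.sum_nonneg fun j _ => hb j
    linarith

/-- The comparison function. -/
noncomputable def Phi (J : ℕ) (ns : ℕ → ℕ) (p : ℕ) (M : ℝ) : ℝ :=
  ∑ j ∈ Ico 1 (J + 1), M ^ (ns j) / ((ns j + j).choose j : ℝ)
    + M ^ (p + 2) * (((p : ℝ) + 2) / (p + 1) * cc p (J + 1))

theorem Hyp.sum_le_Phi {M : ℝ} {b : ℕ → ℝ} (h : Hyp M b) (hb : ∀ j, 0 ≤ b j) (hM : 0 ≤ M)
    (J : ℕ) (ns : ℕ → ℕ) (p N : ℕ) :
    ∑ j ∈ Ico 1 N, b j ≤ M * Phi J ns p M := by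
  refine (sum_split hb 1 (J + 1) N (by omega)).trans ?_
  unfold Phi
  rw [mul_add, Finset.mul_sum]
  refine add_le_add (Finset.sum_le_sum fun j _ => ?_) ?_
  · refine (h.le_div (ns j) j).trans_eq ?_
    rw [pow_succ]; ring
  · refine (h.tail hM p (J + 1) N).trans_eq ?_
    ring

theorem convexOn_Phi (J : ℕ) (ns : ℕ → ℕ) (p : ℕ) : ConvexOn ℝ (Set.Ici 0) (Phi J ns p) := by
  have key : ∀ (n : ℕ) (c : ℝ), 0 ≤ c → ConvexOn ℝ (Set.Ici (0 : ℝ)) (fun M : ℝ => M ^ n * c) := by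
    intro n c hc
    have := (convexOn_pow (𝕜 := ℝ) n).smul hc
    simpa [mul_comm] using this
  have h1 : ∀ s : Finset ℕ, ConvexOn ℝ (Set.Ici (0 : ℝ))
      (fun M : ℝ => ∑ j ∈ s, M ^ (ns j) / ((ns j + j).choose j : ℝ)) := by
    intro s
    induction s using Finset.induction_on with
    | empty => simpa using convexOn_const (0 : ℝ) (convex_Ici (0 : ℝ))
    | insert a s ha ih =>
      simp only [Finset.sum_insert ha]
      refine ConvexOn.add ?_ ih
      simp only [div_eq_mul_inv]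
      exact key _ _ (by positivity)
  have h2 := key (p + 2) (((p : ℝ) + 2) / (p + 1) * cc p (J + 1))
    (by have := cc_nonneg p (J + 1); positivity)
  exact (h1 _).add h2

theorem Phi_le_of_endpoints (J : ℕ) (ns : ℕ → ℕ) (p : ℕ) {lo hi M c : ℝ} (h0 : 0 ≤ lo)
    (h1 : lo ≤ M) (h2 : M ≤ hi) (hlo : Phi J ns p lo ≤ c * (lo - 1))
    (hhi : Phi J ns p hi ≤ c * (hi - 1)) : Phi J ns p M ≤ c * (M - 1) := by
  have hm : M ∈ segment ℝ lo hi := by
    rw [segment_eq_Icc (h1.trans h2)]; exact ⟨h1, h2⟩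
  obtain ⟨s, t, hs, ht, hst, rfl⟩ := hm
  have := (convexOn_Phi J ns p).2 (show lo ∈ Set.Ici (0 : ℝ) from h0)
    (show hi ∈ Set.Ici (0 : ℝ) from h0.trans (h1.trans h2)) hs ht hst
  simp only [smul_eq_mul] at this ⊢
  have e1 : c * (s * lo + t * hi - 1) = s * (c * (lo - 1)) + t * (c * (hi - 1)) := by
    have : t = 1 - s := by linarith
    subst this; ring
  rw [e1]
  have := mul_le_mul_of_nonneg_left hlo hs
  have := mul_le_mul_of_nonneg_left hhi ht
  linarith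

/-! ### The middle range -/

theorem middle {M : ℝ} (h1 : 7 / 6 ≤ M) (h2 : M ≤ 4) :
    ∃ J ns p, Phi J ns p M ≤ 2.718 * (M - 1) := by
  rcases le_total M (123 / 100) with a1 | a1
  · refine ⟨2, fun j => [0, 5, 9].getD j 0, 13, Phi_le_of_endpoints _ _ _ (by norm_num) h1 a1 ?_ ?_⟩ <;>
    · simp only [Phi, cc, Finset.sum_Ico_eq_sum_range, Finset.sum_range_succ]
      norm_num [Nat.choose]
  rcases le_total M (135 / 100) with a2 | a2
  · refine ⟨2, fun j => [0, 3, 7].getD j 0, 9, Phi_le_of_endpoints _ _ _ (by norm_num) a1 a2 ?_ ?_⟩ <;>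
    · simp only [Phi, cc, Finset.sum_Ico_eq_sum_range, Finset.sum_range_succ]
      norm_num [Nat.choose]
  rcases le_total M (161 / 100) with a3 | a3
  · refine ⟨5, fun j => [0, 2, 4, 5, 7, 9].getD j 0, 10,
      Phi_le_of_endpoints _ _ _ (by norm_num) a2 a3 ?_ ?_⟩ <;>
    · simp only [Phi, cc, Finset.sum_Ico_eq_sum_range, Finset.sum_range_succ]
      norm_num [Nat.choose]
  rcases le_total M (11 / 5) with a4 | a4
  · refine ⟨5, fun j => [0, 1, 2, 3, 4, 4].getD j 0, 4,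
      Phi_le_of_endpoints _ _ _ (by norm_num) a3 a4 ?_ ?_⟩ <;>
    · simp only [Phi, cc, Finset.sum_Ico_eq_sum_range, Finset.sum_range_succ]
      norm_num [Nat.choose]
  rcases le_total M (347 / 100) with a5 | a5
  · refine ⟨5, fun j => [0, 0, 1, 1, 2, 2].getD j 0, 2,
      Phi_le_of_endpoints _ _ _ (by norm_num) a4 a5 ?_ ?_⟩ <;>
    · simp only [Phi, cc, Finset.sum_Ico_eq_sum_range, Finset.sum_range_succ]
      norm_num [Nat.choose]
  · refine ⟨5, fun j => [0, 0, 0, 1, 1, 1].getD j 0, 1,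
      Phi_le_of_endpoints _ _ _ (by norm_num) a5 h2 ?_ ?_⟩ <;>
    · simp only [Phi, cc, Finset.sum_Ico_eq_sum_range, Finset.sum_range_succ]
      norm_num [Nat.choose]

/-! ### The range near `1` -/

theorem Phi_small (l : ℕ) (M : ℝ) :
    Phi 1 (fun _ => l) (2 * l) M
      = M ^ l / (l + 1) + 2 * M ^ (2 * l + 2) / ((2 * l + 1) * (2 * l + 3)) := by
  have h1 : (2 + 2 * l + 1).choose (2 * l + 1) = (2 * l + 3) * (l + 1) := by
    rw [show 2 + 2 * l + 1 = (2 * l + 1) + 2 by ring, Nat.choose_symm_add, Nat.choose_two_right]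
    rw [show 2 * l + 1 + 2 - 1 = 2 * (l + 1) by omega, ← mul_assoc, mul_comm _ 2, mul_assoc,
      Nat.mul_div_cancel_left _ two_pos]
  simp only [Phi, cc, Finset.sum_Ico_eq_sum_range, Finset.sum_range_succ]
  rw [h1]
  simp only [Finset.sum_range_zero, zero_add, add_zero, Nat.choose_one_right]
  push_cast
  field_simp

theorem pow_one_add_inv_le (n : ℕ) (hn : 1 ≤ n) :
    (1 + 1 / (n : ℝ)) ^ n ≤ Real.exp 1 * ((2 * n + 2) / (2 * n + 3)) := by
  have hn' : (1 : ℝ) ≤ n := by exact_mod_cast hn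
  have hpos : (0 : ℝ) < 1 + 1 / (n : ℝ) := by positivity
  have hlog : Real.log (1 + 1 / (n : ℝ)) ≤ ((1 + 1 / (n : ℝ)) - (1 + 1 / (n : ℝ))⁻¹) / 2 := by
    rw [← Real.sinh_log hpos, Real.self_le_sinh_iff]
    exact Real.log_nonneg (by have : (0 : ℝ) ≤ 1 / (n : ℝ) := by positivity
                              linarith)
  have e1 : (n : ℝ) * (((1 + 1 / (n : ℝ)) - (1 + 1 / (n : ℝ))⁻¹) / 2) = 1 - 1 / (2 * n + 2) := by
    field_simp
    ring
  have h2 : (1 + 1 / (n : ℝ)) ^ n ≤ Real.exp (1 - 1 / (2 * n + 2)) := by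
    rw [← Real.exp_log (pow_pos hpos n), Real.log_pow, Real.exp_le_exp, ← e1]
    exact mul_le_mul_of_nonneg_left hlog (by positivity)
  refine h2.trans ?_
  rw [Real.exp_sub, div_eq_mul_inv]
  refine mul_le_mul_of_nonneg_left ?_ (Real.exp_pos 1).le
  have h3 : 1 / (2 * (n : ℝ) + 2) + 1 ≤ Real.exp (1 / (2 * n + 2)) := Real.add_one_le_exp _
  have e2 : (2 * (n : ℝ) + 2) / (2 * n + 3) = (1 / (2 * (n : ℝ) + 2) + 1)⁻¹ := by
    field_simp
    ring
  rw [e2]
  exact inv_anti₀ (by positivity) h3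

theorem star (n : ℕ) (hn : 6 ≤ n) :
    (1 + 1 / (n : ℝ)) ^ n / (n + 1) + 2 * ((1 + 1 / (n : ℝ)) ^ n) ^ 2 / ((2 * n - 1) * (2 * n + 1))
      ≤ Real.exp 1 * (1 / n) := by
  have hn' : (6 : ℝ) ≤ n := by exact_mod_cast hn
  have h1 := pow_one_add_inv_le n (by omega)
  have h0 : 0 ≤ (1 + 1 / (n : ℝ)) ^ n := by positivity
  set E := (1 + 1 / (n : ℝ)) ^ n
  set x : ℝ := (n : ℝ)
  have he : Real.exp 1 < 2.7182818286 := Real.exp_one_lt_d9
  have he0 : 0 < Real.exp 1 := Real.exp_pos 1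
  set e := Real.exp 1
  have hx1 : 0 < 2 * x - 1 := by linarith
  have h2 : E ^ 2 ≤ e * (2.72 * ((2 * x + 2) / (2 * x + 3)) ^ 2) := by
    have : E ^ 2 ≤ (e * ((2 * x + 2) / (2 * x + 3))) ^ 2 := pow_le_pow_left₀ h0 h1 2
    refine this.trans ?_
    rw [mul_pow, pow_two e, mul_assoc]
    gcongr
    linarith
  have h3 : E / (x + 1) + 2 * E ^ 2 / ((2 * x - 1) * (2 * x + 1))
      ≤ e * ((2 * x + 2) / (2 * x + 3)) / (x + 1)
        + 2 * (e * (2.72 * ((2 * x + 2) / (2 * x + 3)) ^ 2)) / ((2 * x - 1) * (2 * x + 1)) := by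
    gcongr
  refine h3.trans ?_
  have e1 : e * ((2 * x + 2) / (2 * x + 3)) / (x + 1)
        + 2 * (e * (2.72 * ((2 * x + 2) / (2 * x + 3)) ^ 2)) / ((2 * x - 1) * (2 * x + 1))
      = e * ((2 * (2 * x + 3) * ((2 * x - 1) * (2 * x + 1)) + 5.44 * (2 * x + 2) ^ 2)
          / ((2 * x + 3) ^ 2 * ((2 * x - 1) * (2 * x + 1)))) := by
    field_simp
    ring
  rw [e1]
  refine mul_le_mul_of_nonneg_left ?_ he0.le
  rw [div_le_div_iff₀ (by positivity) (by positivity)]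
  obtain ⟨y, hy, hxy⟩ : ∃ y : ℝ, 0 ≤ y ∧ x = y + 6 := ⟨x - 6, by linarith, by ring⟩
  rw [hxy]
  nlinarith [mul_nonneg hy hy, mul_nonneg hy (mul_nonneg hy hy)]

theorem small {M : ℝ} (h1 : 1 < M) (h2 : M ≤ 7 / 6) :
    ∃ J ns p, Phi J ns p M ≤ Real.exp 1 * (M - 1) := by
  have hε : 0 < M - 1 := by linarith
  set l := ⌊1 / (M - 1)⌋₊ with hl
  have hl6 : 6 ≤ l := by
    apply Nat.le_floor
    rw [le_div_iff₀ hε]; push_cast; linarith
  have hl6' : (6 : ℝ) ≤ l := by exact_mod_cast hl6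
  have hA : (l : ℝ) ≤ 1 / (M - 1) := Nat.floor_le (by positivity)
  have hB : 1 / (M - 1) < (l : ℝ) + 1 := Nat.lt_floor_add_one _
  have hhi : M ≤ 1 + 1 / (l : ℝ) := by
    rw [le_div_iff₀ hε] at hA
    have : M - 1 ≤ 1 / (l : ℝ) := by rw [le_div_iff₀ (by linarith)]; linarith
    linarith
  have hlo : 1 + 1 / ((l : ℝ) + 1) ≤ M := by
    rw [div_lt_iff₀ hε] at hB
    have : 1 / ((l : ℝ) + 1) ≤ M - 1 := by rw [div_le_iff₀ (by linarith)]; linarith
    linarith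
  refine ⟨1, fun _ => l, 2 * l, Phi_le_of_endpoints _ _ _ (by positivity) hlo hhi ?_ ?_⟩
  · have hs := star (l + 1) (by omega)
    push_cast at hs
    rw [Phi_small, add_sub_cancel_left]
    refine le_trans (le_of_eq ?_) hs
    have hp : (0 : ℝ) < l + 1 := by linarith
    have e1 : (1 + 1 / ((l : ℝ) + 1)) ^ (l + 1) / ((l : ℝ) + 1 + 1)
        = (1 + 1 / ((l : ℝ) + 1)) ^ l / (l + 1) := by
      rw [pow_succ]; field_simp
    rw [e1, ← pow_mul]
    congr 1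
    rw [show (l + 1) * 2 = 2 * l + 2 by ring]
    congr 1
    ring
  · have hs := star l hl6
    rw [Phi_small, add_sub_cancel_left]
    refine le_trans ?_ hs
    have hp : (0 : ℝ) < l := by linarith
    have hp2 : (0 : ℝ) < 2 * l - 1 := by linarith
    have e1 : (1 + 1 / (l : ℝ)) ^ (2 * l + 2) = ((1 + 1 / (l : ℝ)) ^ l) ^ 2 * ((l + 1) ^ 2 / l ^ 2) := by
      rw [pow_add, ← pow_mul, mul_comm l 2]
      congr 1
      field_simp
    rw [e1]
    have h0 : 0 ≤ ((1 + 1 / (l : ℝ)) ^ l) ^ 2 := by positivity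
    set F := ((1 + 1 / (l : ℝ)) ^ l) ^ 2
    have : ((l : ℝ) + 1) ^ 2 / l ^ 2 / ((2 * l + 1) * (2 * l + 3))
        ≤ 1 / ((2 * l - 1) * (2 * l + 1)) := by
      rw [div_div, div_le_div_iff₀ (by positivity) (by positivity)]
      nlinarith [mul_pos hp hp, mul_pos hp (mul_pos hp hp)]
    have h5 := mul_le_mul_of_nonneg_left this (show 0 ≤ 2 * F by positivity)
    have e2 : 2 * (F * (((l : ℝ) + 1) ^ 2 / l ^ 2)) / ((2 * l + 1) * (2 * l + 3))
        = 2 * F * (((l : ℝ) + 1) ^ 2 / l ^ 2 / ((2 * l + 1) * (2 * l + 3))) := by ring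
    have e3 : 2 * F / ((2 * (l : ℝ) - 1) * (2 * l + 1))
        = 2 * F * (1 / ((2 * l - 1) * (2 * l + 1))) := by ring
    rw [e2, e3]
    linarith

/-! ### The range of large `M` -/

theorem Hyp.large {M : ℝ} {b : ℕ → ℝ} (h : Hyp M b) (hb : ∀ j, 0 ≤ b j) (hM : 4 ≤ M) (N : ℕ) :
    ∑ j ∈ Ico 1 N, b j ≤ M * (2.718 * (M - 1)) := by
  have hM0 : 0 < M := by linarith
  obtain ⟨A, hA1, hA2⟩ : ∃ A : ℕ, 1.3 * M ≤ (A : ℝ) + 2 ∧ (A : ℝ) + 2 ≤ 1.3 * M + 1 := by
    have h1 : 2 ≤ ⌈1.3 * M⌉₊ := by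
      have : (2 : ℝ) ≤ ⌈1.3 * M⌉₊ := le_trans (by linarith) (Nat.le_ceil _)
      exact_mod_cast this
    refine ⟨⌈1.3 * M⌉₊ - 2, ?_, ?_⟩
    · rw [Nat.cast_sub h1]; have := Nat.le_ceil (1.3 * M); push_cast; linarith
    · rw [Nat.cast_sub h1]
      have := Nat.ceil_lt_add_one (show 0 ≤ 1.3 * M by positivity); push_cast; linarith
  obtain ⟨B, hB1, hB2⟩ : ∃ B : ℕ, 3 * M ≤ (B : ℝ) + 2 ∧ (B : ℝ) + 2 ≤ 3 * M + 1 := by
    have h1 : 2 ≤ ⌈3 * M⌉₊ := by
      have : (2 : ℝ) ≤ ⌈3 * M⌉₊ := le_trans (by linarith) (Nat.le_ceil _)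
      exact_mod_cast this
    refine ⟨⌈3 * M⌉₊ - 2, ?_, ?_⟩
    · rw [Nat.cast_sub h1]; have := Nat.le_ceil (3 * M); push_cast; linarith
    · rw [Nat.cast_sub h1]
      have := Nat.ceil_lt_add_one (show 0 ≤ 3 * M by positivity); push_cast; linarith
  have hAB : A ≤ B := by
    have : (A : ℝ) ≤ B := by linarith
    exact_mod_cast this
  have s1 := sum_split hb 1 (A + 1) N (by omega)
  have s2 := sum_split hb (A + 1) (B + 1) N (by omega)
  have t1 : ∑ j ∈ Ico 1 (A + 1), b j ≤ M * A := by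
    have : ∀ j ∈ Ico 1 (A + 1), b j ≤ M := fun j _ => by simpa using h 0 j
    have := Finset.sum_le_card_nsmul _ _ _ this
    simpa [mul_comm] using this
  have t2 := h.block 0 (A + 1) (B + 1) (by omega)
  have t3 := h.tail hM0.le 1 (B + 1) N
  have c1 : ∀ j : ℕ, cc 0 (j + 1) = 1 / ((j : ℝ) + 2) := by
    intro j; simp [cc]; ring
  have c2 : cc 1 (B + 1) = 2 / (((B : ℝ) + 2) * (B + 3)) := by
    unfold cc
    rw [show B + 1 + 1 + 1 = B + 3 by ring, show 1 + 1 = 2 by ring, Nat.cast_choose_two]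
    push_cast
    rw [show (B : ℝ) + 3 - 1 = B + 2 by ring]
    field_simp
  rw [c1, c1] at t2
  rw [c2] at t3
  set u : ℝ := A + 2 with hu
  set v : ℝ := B + 2 with hv
  have hu0 : 0 < u := by positivity
  have hv0 : 0 < v := by positivity
  have q1 : u + 2 * M ^ 2 / u ≤ 2.8404 * M := by
    have : 2 * M ^ 2 / u ≤ 2.8404 * M - u := by
      rw [div_le_iff₀ hu0]
      have hu2 : u ≤ 1.55 * M := by linarith
      nlinarith [mul_nonneg (sub_nonneg.mpr hA1) (sub_nonneg.mpr hu2)]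
    linarith
  have q2 : 3 * M ^ 3 / (v * (v + 1)) - 2 * M ^ 2 / v ≤ -0.3313 * M := by
    have a1 : 3 * M ^ 3 / (v * (v + 1)) ≤ 3 * M ^ 3 / (v * v) := by
      gcongr; linarith
    have a2 : 3 * M ^ 3 / (v * v) - 2 * M ^ 2 / v = M * ((3 * M ^ 2 - 2 * M * v) / (v * v)) := by
      field_simp
    have a3 : (3 * M ^ 2 - 2 * M * v) / (v * v) ≤ -0.3313 := by
      rw [div_le_iff₀ (by positivity)]
      have hv2 : v ≤ 3.25 * M := by linarith
      nlinarith [mul_nonneg (sub_nonneg.mpr hB1) (sub_nonneg.mpr hv2)]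
    have a4 := mul_le_mul_of_nonneg_left a3 hM0.le
    linarith
  have e1 : M ^ (0 + 3) * ((((0 : ℕ) : ℝ) + 2) / (((0 : ℕ) : ℝ) + 1) * (1 / u - 1 / v))
      = M * (2 * M ^ 2 / u - 2 * M ^ 2 / v) := by
    push_cast; ring
  have e2 : M ^ (1 + 3) * ((((1 : ℕ) : ℝ) + 2) / (((1 : ℕ) : ℝ) + 1) * (2 / (v * ((B : ℝ) + 3))))
      = M * (3 * M ^ 3 / (v * (v + 1))) := by
    rw [show (B : ℝ) + 3 = v + 1 by rw [hv]; ring]
    push_cast; ring
  rw [e1] at t2
  rw [e2] at t3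
  have e3 : (A : ℝ) = u - 2 := by rw [hu]; ring
  rw [e3] at t1
  have fin : (u - 2) + (2 * M ^ 2 / u - 2 * M ^ 2 / v) + 3 * M ^ 3 / (v * (v + 1))
      ≤ 2.718 * (M - 1) := by linarith
  have := mul_le_mul_of_nonneg_left fin hM0.le
  nlinarith

theorem Hyp.sum_le_of_one_lt {M : ℝ} {b : ℕ → ℝ} (h : Hyp M b) (hb : ∀ j, 0 ≤ b j) (hM : 1 < M)
    (N : ℕ) : ∑ j ∈ Ico 1 N, b j ≤ Real.exp 1 * M * (M - 1) := by
  have he : 2.7182818283 < Real.exp 1 := Real.exp_one_gt_d9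
  have hM0 : 0 ≤ M := by linarith
  have hmono : M * (2.718 * (M - 1)) ≤ Real.exp 1 * M * (M - 1) := by
    have : 0 ≤ M * (M - 1) := mul_nonneg hM0 (by linarith)
    nlinarith
  rcases le_total M (7 / 6) with h1 | h1
  · obtain ⟨J, ns, p, hp⟩ := small hM h1
    have := mul_le_mul_of_nonneg_left hp hM0
    have h3 := h.sum_le_Phi hb hM0 J ns p N
    linarith
  rcases le_total M 4 with h2 | h2
  · obtain ⟨J, ns, p, hp⟩ := middle h1 h2
    have := mul_le_mul_of_nonneg_left hp hM0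
    have h3 := h.sum_le_Phi hb hM0 J ns p N
    linarith
  · exact (h.large hb h2 N).trans hmono

theorem Hyp.sum_le {M : ℝ} {b : ℕ → ℝ} (h : Hyp M b) (hb : ∀ j, 0 ≤ b j) (hM : 1 ≤ M)
    (N : ℕ) : ∑ j ∈ Ico 1 N, b j ≤ Real.exp 1 * M * (M - 1) := by
  rcases hM.lt_or_eq with hM | rfl
  · exact h.sum_le_of_one_lt hb hM N
  · rw [sub_self, mul_zero]
    refine le_of_forall_pos_le_add fun δ hδ => ?_
    have he : Real.exp 1 < 2.7182818286 := Real.exp_one_lt_d9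
    have he0 : 0 < Real.exp 1 := Real.exp_pos 1
    set ε := min 1 (δ / 6) with hε
    have hε0 : 0 < ε := lt_min one_pos (by positivity)
    have hε1 : ε ≤ 1 := min_le_left _ _
    have hε2 : ε ≤ δ / 6 := min_le_right _ _
    have h' : Hyp (1 + ε) b := fun n j =>
      (h n j).trans (pow_le_pow_left₀ zero_le_one (by linarith) _)
    have := h'.sum_le_of_one_lt hb (by linarith) N
    rw [add_sub_cancel_left] at this
    have h4 : Real.exp 1 * (1 + ε) ≤ 6 := by nlinarith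
    nlinarith

end Pool.Agent.P.MP_e0d2b2_an
end

-- part Pool.Agent.P.MP_e0d2b2_an.Example
section

/-! A two-dimensional Banach space with a nilpotent operator `S`, `‖S‖ ≥ e`,
`‖1 + ζ S‖ ≤ exp ‖ζ‖`. -/

namespace Pool.Agent.P.MP_e0d2b2_an

open BoundedContinuousFunction

universe u

/-- the underlying vector space `ℂ²` -/
def E : Type u := ULift.{u} (ℂ × ℂ)

noncomputable instance : AddCommGroup E.{u} := inferInstanceAs (AddCommGroup (ULift.{u} (ℂ × ℂ)))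
noncomputable instance : Module ℂ E.{u} := inferInstanceAs (Module ℂ (ULift.{u} (ℂ × ℂ)))
instance : Module.Finite ℂ E.{u} := inferInstanceAs (Module.Finite ℂ (ULift.{u} (ℂ × ℂ)))
instance : Nontrivial E.{u} := inferInstanceAs (Nontrivial (ULift.{u} (ℂ × ℂ)))

theorem mul_exp_neg_le (t : ℝ) : t * Real.exp (-t) ≤ Real.exp (-1) := by
  have h := Real.add_one_le_exp (t - 1)
  have e1 : Real.exp (-1) = Real.exp (t - 1) * Real.exp (-t) := by
    rw [← Real.exp_add]; congr 1; ring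
  rw [e1]
  exact mul_le_mul_of_nonneg_right (by linarith) (Real.exp_pos _).le

noncomputable def g0 : ℂ →ᵇ ℂ :=
  BoundedContinuousFunction.ofNormedAddCommGroup (fun w => ((Real.exp (-‖w‖) : ℝ) : ℂ))
    (by fun_prop) 1 (fun w => by
      rw [Complex.norm_real, Real.norm_eq_abs, abs_of_pos (Real.exp_pos _)]
      exact Real.exp_le_one_iff.mpr (by simp))

noncomputable def g1 : ℂ →ᵇ ℂ :=
  BoundedContinuousFunction.ofNormedAddCommGroup (fun w => w * ((Real.exp (-‖w‖) : ℝ) : ℂ))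
    (by fun_prop) (Real.exp (-1)) (fun w => by
      rw [norm_mul, Complex.norm_real, Real.norm_eq_abs, abs_of_pos (Real.exp_pos _)]
      exact mul_exp_neg_le _)

noncomputable def emb : E.{u} →ₗ[ℂ] (ℂ →ᵇ ℂ) where
  toFun v := v.down.1 • g0 + v.down.2 • g1
  map_add' v w := by
    change (v.down.1 + w.down.1) • g0 + (v.down.2 + w.down.2) • g1 = _
    simp only [add_smul]; abel
  map_smul' c v := by
    change (c * v.down.1) • g0 + (c * v.down.2) • g1 = _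
    simp only [mul_smul, smul_add, RingHom.id_apply]

theorem emb_apply (v : E.{u}) (w : ℂ) :
    emb v w = (v.down.1 + w * v.down.2) * ((Real.exp (-‖w‖) : ℝ) : ℂ) := by
  change v.down.1 * ((Real.exp (-‖w‖) : ℝ) : ℂ)
    + v.down.2 * (w * ((Real.exp (-‖w‖) : ℝ) : ℂ)) = _
  ring

theorem emb_injective : Function.Injective emb.{u} := by
  rw [← LinearMap.ker_eq_bot, LinearMap.ker_eq_bot']
  intro v hv
  have h0 := emb_apply v 0
  have h1 := emb_apply v 1
  rw [hv] at h0 h1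
  have hne : ∀ t : ℝ, ((Real.exp t : ℝ) : ℂ) ≠ 0 := fun t => by
    exact_mod_cast (Real.exp_pos t).ne'
  have a0 : v.down.1 = 0 := by
    have := (mul_eq_zero.mp h0.symm).resolve_right (hne _)
    simpa using this
  have a1 : v.down.2 = 0 := by
    have := (mul_eq_zero.mp h1.symm).resolve_right (hne _)
    simpa [a0] using this
  obtain ⟨⟨x, y⟩⟩ := v
  simp only at a0 a1
  subst a0 a1
  rfl

noncomputable instance : NormedAddCommGroup E.{u} :=
  NormedAddCommGroup.induced E (ℂ →ᵇ ℂ) emb emb_injective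

noncomputable instance : NormedSpace ℂ E.{u} := NormedSpace.induced ℂ E (ℂ →ᵇ ℂ) emb

instance : CompleteSpace E.{u} := FiniteDimensional.complete ℂ E

theorem norm_E (v : E.{u}) : ‖v‖ = ‖emb v‖ := rfl

noncomputable def Slin : E.{u} →ₗ[ℂ] E.{u} where
  toFun v := ⟨(v.down.2, 0)⟩
  map_add' v w := by
    change _ = (⟨(v.down.2 + w.down.2, 0 + 0)⟩ : ULift (ℂ × ℂ))
    rw [add_zero]; rfl
  map_smul' c v := by
    change _ = (⟨(c * v.down.2, c * 0)⟩ : ULift (ℂ × ℂ))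
    rw [mul_zero]; rfl

noncomputable def S : E.{u} →L[ℂ] E.{u} := LinearMap.toContinuousLinearMap Slin

theorem S_apply (v : E.{u}) : S v = ⟨(v.down.2, 0)⟩ := rfl

theorem S_mul_S : S.{u} * S.{u} = 0 := by
  ext v; rfl

theorem norm_one_add_smul_S (ζ : ℂ) : ‖(1 : E.{u} →L[ℂ] E.{u}) + ζ • S‖ ≤ Real.exp ‖ζ‖ := by
  refine ContinuousLinearMap.opNorm_le_bound _ (Real.exp_pos _).le fun v => ?_
  rw [norm_E, norm_E]
  refine (BoundedContinuousFunction.norm_le (by positivity)).mpr fun w => ?_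
  have h1 : (((1 : E.{u} →L[ℂ] E.{u}) + ζ • S) v).down.1 = v.down.1 + ζ * v.down.2 := rfl
  have h2 : (((1 : E.{u} →L[ℂ] E.{u}) + ζ • S) v).down.2 = v.down.2 + ζ * 0 := rfl
  have h3 := (emb v).norm_coe_le_norm (w + ζ)
  rw [emb_apply] at h3 ⊢
  rw [h1, h2]
  rw [norm_mul, Complex.norm_real, Real.norm_eq_abs, abs_of_pos (Real.exp_pos _)] at h3 ⊢
  have e1 : v.down.1 + ζ * v.down.2 + w * (v.down.2 + ζ * 0) = v.down.1 + (w + ζ) * v.down.2 := by
    ring
  rw [e1]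
  have h4 : Real.exp (-‖w‖) ≤ Real.exp ‖ζ‖ * Real.exp (-‖w + ζ‖) := by
    rw [← Real.exp_add, Real.exp_le_exp]
    have := norm_add_le w ζ
    linarith
  calc ‖v.down.1 + (w + ζ) * v.down.2‖ * Real.exp (-‖w‖)
      ≤ ‖v.down.1 + (w + ζ) * v.down.2‖ * (Real.exp ‖ζ‖ * Real.exp (-‖w + ζ‖)) := by gcongr
    _ = Real.exp ‖ζ‖ * (‖v.down.1 + (w + ζ) * v.down.2‖ * Real.exp (-‖w + ζ‖)) := by ring
    _ ≤ _ := by gcongr

theorem exp_one_le_norm_S : Real.exp 1 ≤ ‖S.{u}‖ := by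
  let v : E.{u} := ⟨(0, 1)⟩
  have h1 : ‖v‖ ≤ Real.exp (-1) := by
    rw [norm_E]
    refine (BoundedContinuousFunction.norm_le (Real.exp_pos _).le).mpr fun w => ?_
    rw [emb_apply, norm_mul, Complex.norm_real, Real.norm_eq_abs, abs_of_pos (Real.exp_pos _)]
    simpa [v] using mul_exp_neg_le ‖w‖
  have h2 : 1 ≤ ‖S v‖ := by
    rw [norm_E]
    have := (emb (S v)).norm_coe_le_norm 0
    have e : (S v).down.1 = 1 := rfl
    rw [emb_apply, e] at this
    simpa using this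
  have h3 := S.le_opNorm v
  have h4 : ‖S.{u}‖ * ‖v‖ ≤ ‖S.{u}‖ * Real.exp (-1) := by gcongr
  have h5 : Real.exp 1 * Real.exp (-1) = 1 := by rw [← Real.exp_add]; simp
  have h6 : 0 < Real.exp (-1) := Real.exp_pos _
  nlinarith

theorem resolvent_facts (ε : ℂ) {z : ℂ} (hz : z ≠ 0) :
    z ∈ resolventSet ℂ (ε • S.{u}) ∧ resolvent (ε • S.{u}) z = z⁻¹ • (1 + (ε / z) • S) := by
  have h1 : (algebraMap ℂ (E.{u} →L[ℂ] E.{u}) z - ε • S) * (z⁻¹ • (1 + (ε / z) • S)) = 1 := by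
    rw [Algebra.algebraMap_eq_smul_one]
    simp only [mul_smul_comm, mul_add, sub_mul, smul_mul_assoc, S_mul_S, mul_one, one_mul,
      smul_zero, sub_zero, smul_smul, div_mul_cancel₀ _ hz, sub_add_cancel, inv_mul_cancel₀ hz,
      one_smul]
  have h2 : (z⁻¹ • (1 + (ε / z) • S)) * (algebraMap ℂ (E.{u} →L[ℂ] E.{u}) z - ε • S) = 1 := by
    rw [Algebra.algebraMap_eq_smul_one]
    simp only [mul_smul_comm, add_mul, mul_sub, smul_mul_assoc, S_mul_S, mul_one, one_mul,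
      smul_zero, add_zero, smul_add, smul_smul, mul_inv_cancel₀ hz, one_smul]
    have : z * (z⁻¹ * (ε / z)) = ε * z⁻¹ := by field_simp
    rw [this, add_sub_cancel_right]
  let un : (E.{u} →L[ℂ] E.{u})ˣ := ⟨_, _, h1, h2⟩
  refine ⟨⟨un, rfl⟩, ?_⟩
  exact Ring.inverse_unit un

end Pool.Agent.P.MP_e0d2b2_an
end

-- part Pool.Agent.P.MP_e0d2b2_an.Main
section

namespace Pool.Agent.P.MP_e0d2b2_an

universe u

theorem upper {X : Type u} [NormedAddCommGroup X] [NormedSpace ℂ X] [CompleteSpace X]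
    [Nontrivial X] (T : X →L[ℂ] X) (M : ℝ) (hs : spectrum ℂ T ⊆ Metric.ball 0 1)
    (hM : ∀ z : ℂ, 1 ≤ ‖z‖ → ‖resolvent T z‖ ≤ M) :
    Summable (fun j : ℕ => ‖T ^ (j + 1)‖) ∧
      ∑' j : ℕ, ‖T ^ (j + 1)‖ ≤ Real.exp 1 * M * (M - 1) := by
  have h : Hyp M (fun j => ‖T ^ j‖) := fun n j => choose_mul_norm_pow_le hs hM n j
  have hM1 : 1 ≤ M := by simpa using h 0 0
  have hN : ∀ N, ∑ j ∈ Finset.range N, ‖T ^ (j + 1)‖ ≤ Real.exp 1 * M * (M - 1) := by
    intro N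
    have := h.sum_le (fun j => norm_nonneg _) hM1 (N + 1)
    rw [Finset.sum_Ico_eq_sum_range] at this
    simpa [add_comm] using this
  exact ⟨summable_of_sum_range_le (fun j => norm_nonneg _) hN,
    Real.tsum_le_of_sum_range_le (fun j => norm_nonneg _) hN⟩

theorem lower {C : ℝ}
    (h : ∀ (X : Type u) [NormedAddCommGroup X] [NormedSpace ℂ X] [CompleteSpace X]
      [Nontrivial X] (T : X →L[ℂ] X) (M : ℝ), spectrum ℂ T ⊆ Metric.ball 0 1 →
      (∀ z : ℂ, 1 ≤ ‖z‖ → ‖resolvent T z‖ ≤ M) →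
      Summable (fun j : ℕ => ‖T ^ (j + 1)‖) ∧ ∑' j : ℕ, ‖T ^ (j + 1)‖ ≤ C * M * (M - 1)) :
    Real.exp 1 ≤ C := by
  have key : ∀ ε : ℝ, 0 < ε → Real.exp 1 * ε ≤ C * Real.exp ε * (Real.exp ε - 1) := by
    intro ε hε
    have hs : spectrum ℂ ((ε : ℂ) • S.{u}) ⊆ Metric.ball 0 1 := by
      intro z hz
      by_cases h0 : z = 0
      · simp [h0]
      · exact absurd (resolvent_facts (ε : ℂ) h0).1 hz
    have hM : ∀ z : ℂ, 1 ≤ ‖z‖ → ‖resolvent ((ε : ℂ) • S.{u}) z‖ ≤ Real.exp ε := by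
      intro z hz
      have h0 : z ≠ 0 := by rintro rfl; norm_num at hz
      rw [(resolvent_facts (ε : ℂ) h0).2, norm_smul, norm_inv]
      have a1 : ‖z‖⁻¹ ≤ 1 := inv_le_one_of_one_le₀ hz
      have a2 := norm_one_add_smul_S.{u} ((ε : ℂ) / z)
      have a3 : ‖(ε : ℂ) / z‖ ≤ ε := by
        rw [norm_div, Complex.norm_real, Real.norm_eq_abs, abs_of_pos hε]
        exact div_le_self hε.le hz
      have a4 : Real.exp ‖(ε : ℂ) / z‖ ≤ Real.exp ε := Real.exp_le_exp.mpr a3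
      calc ‖z‖⁻¹ * ‖(1 : E.{u} →L[ℂ] E.{u}) + ((ε : ℂ) / z) • S‖ ≤ 1 * Real.exp ε := by
            gcongr; exact a2.trans a4
        _ = _ := one_mul _
    obtain ⟨h1, h2⟩ := h E.{u} ((ε : ℂ) • S) (Real.exp ε) hs hM
    have h3 := h1.le_tsum 0 (fun j _ => norm_nonneg _)
    simp only [zero_add, pow_one, norm_smul, Complex.norm_real, Real.norm_eq_abs,
      abs_of_pos hε] at h3
    have h4 := exp_one_le_norm_S.{u}
    nlinarith
  have hd : HasDerivAt (fun ε : ℝ => C * Real.exp ε * (Real.exp ε - 1)) C 0 := by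
    have := (((Real.hasDerivAt_exp 0).const_mul C).mul ((Real.hasDerivAt_exp 0).sub_const 1))
    refine HasDerivAt.congr_deriv this ?_
    simp
  have ht := hd.tendsto_slope_zero_right
  refine ge_of_tendsto ht ?_
  filter_upwards [self_mem_nhdsWithin] with ε hε
  have hε' : 0 < ε := hε
  have := key ε hε'
  simp only [zero_add, Real.exp_zero, sub_self, mul_zero, sub_zero, smul_eq_mul]
  rw [← div_eq_inv_mul, le_div_iff₀ hε']
  exact this

theorem main : IsLeast {C : ℝ | 0 < C ∧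
    ∀ (X : Type u) [NormedAddCommGroup X] [NormedSpace ℂ X] [CompleteSpace X] [Nontrivial X]
      (T : X →L[ℂ] X) (M : ℝ), spectrum ℂ T ⊆ Metric.ball 0 1 →
      (∀ z : ℂ, 1 ≤ ‖z‖ → ‖resolvent T z‖ ≤ M) →
      Summable (fun j : ℕ => ‖T ^ (j + 1)‖) ∧ ∑' j : ℕ, ‖T ^ (j + 1)‖ ≤ C * M * (M - 1)}
    (Real.exp 1) :=
  ⟨⟨Real.exp_pos 1, fun _ _ _ _ _ T M hs hM => upper T M hs hM⟩, fun _ hC => lower hC.2⟩

end Pool.Agent.P.MP_e0d2b2_an
end
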